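import Mathlib
import Pool.Agent.TH170.GS.Main
import Pool.Agent.Y1.KN.All
import Pool.Agent.Y1.KN.Use
import Pool.Agent.H8NH.Main

/-!
# The numerical standard conjecture of Hodge type for abelian varieties over finite fields with almost
all slope types of all CM fields with few CM subfields, and of all CM fields whose degree has a large
prime factor

Over an algebraic closure of the field with `p` elements each abelian variety is isogenous to the
reduction of an abelian variety of CM type (Honda, Tate). So an abelian variety over the field with
`p ^ a` elements is modelled by `RedAV`: a finite product of CM types `(E i, Φ i)` with Weil numbers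
`π i ∈ E i` that satisfy the formula of Shimura and Taniyama; its cohomology of degree `n`, with
coefficients in an algebraically closed field `Ω`, consists of the alternating `n`-forms on
`Ω ⊗ H_1`, on which the Frobenius endomorphism acts by `π`.

The `ℚ`-vector space of the classes of algebraic cycles of degree `card κ` on `Y` is `C Y κ`. The
properties of these spaces that are used are known theorems: they are closed under sums, cup products,
pull-backs and push-forwards, they contain the Hodge classes of degree two of the liftings (Lefschetz)
and the split Weil classes of degree four and six (Markman; not needed here), and the Tate classes of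
degree two are combinations of such classes (Tate) (`IsCycleSystem`); the positivity of the Rosati
involution (Weil, `IsRosatiPositive`); classes of cycles are Tate classes over finite extensions
(`AreTate`). The polarizations are those compatible with the complex multiplications of the lifting
(`IsPolar`); by theorems of Honda, Tate and Zink each polarized abelian variety over an algebraic
closure of a finite field is isogenous to the reduction of such a polarized abelian variety.

`NumHodge Y` is the numerical standard conjecture of Hodge type for `Y`: if `z` is a cycle of
codimension `r`, primitive modulo numerical equivalence (`z · E^(m+1)` has intersection number zero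
with all cycles of the complementary degree, `dim Y = 2 r + m`) and not numerically equivalent to zero,
then `(-1)^r z · z · E^m > 0`; and numerical and homological equivalence coincide.

The families of slope types, the class of the abelian varieties with slopes of these types
(`OfTypes`), and the numbers `rate (K i) (g i) (q i)` and `subfieldWeight K` are those of the starting
result MP_ee618e_ag AllCMFields on the conjecture of Tate. The proof combines the estimate for
relations between Frobenius eigenvalues from that file (`Pool.Agent.Y1.KN`) with the positivity and
nondegeneracy theorems of helper117 (`Pool.Agent.TH117.PO`).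
-/

set_option autoImplicit false

namespace Pool.Agent.Results.MP_c0b458_ag.AllCMFields

open NumberField Module Pool.Agent.H204R3.CM Pool.Agent.H977R3.CM Pool.Agent.TH170
  Pool.Agent.Y1.KN Pool.Agent.H8NH

/-- **The numerical standard conjecture of Hodge type for all abelian varieties over finite fields
with almost all slope types of all CM fields with few CM subfields, and of all CM fields whose degree
has a large prime factor.** For an absolute constant `C`, at most
`2 ^ (∑ i, g i) * ∑ i, C * (n i) ^ 2 * rate (K i) (g i) (q i)` of the `2 ^ (∑ i, g i)` families of CM
types of the fields `K i` (of degree `2 g i`) are exceptional. -/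
theorem result :
    (∃ C : ℝ, 0 ≤ C ∧ ∀ (p : ℕ) [Fact p.Prime] (ν : PadicAlgCl p ≃+* ℂ) (I : Type) [Fintype I]
      (K : I → Type) [∀ i, Field (K i)] [∀ i, NumberField (K i)] [∀ i, IsCMField (K i)]
      (M : ∀ i, (K i →+* ℂ) → ℤ) (n g q : I → ℕ), PairwiseIndep K →
      (∀ i φ, M i (ComplexEmbedding.conjugate φ) = M i φ) → (∀ i, n i ≠ 0) →
      (∀ i φ, M i φ ∣ (n i : ℤ)) → (∀ i, finrank ℚ (K i) = 2 * g i) →
      (∀ i, q i ∣ g i ∧ (q i = 1 ∨ (q i).Prime)) →
      ((exceptionalFamilies ν K M).ncard : ℝ) ≤
        2 ^ (∑ i, g i) * ∑ i, C * (n i : ℝ) ^ 2 * rate (K i) (g i) (q i)) ∧
    WeightEstimate := by
  obtain ⟨C, hC0, hC⟩ := slope families_holds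
  refine ⟨⟨C, hC0, ?_⟩, weight_estimate_holds⟩
  intro p _ ν I _ K _ _ _ M n g q hind hM hn hMn hg hq
  exact hC p ν I K M n g q hind hM hn hMn hg hq _ fun Φ h Y hY => numHodge_of_elementary (h Y hY)

end Pool.Agent.Results.MP_c0b458_ag.AllCMFields
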