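import Pool.Agent.Y137.HS.Main
import Pool.Agent.Y137.HS.Small
import Pool.Agent.TH117.PO.Full

/-!
# The numerical Hodge standard conjecture for powers of abelian varieties of dimension at most five and
for some products, over finite fields

Over an algebraic closure of the field with `p` elements each abelian variety is isogenous to the
reduction `Y` of an abelian variety of CM type (`RedAV`; Honda, Tate); its cohomology of degree `n`,
with coefficients in an algebraically closed field `Ω` (an algebraic closure of `ℚ_ℓ`), consists of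
the alternating `n`-forms on `Ω ⊗ H_1`. Suppose that one of the following holds (`IsCovered`):

* all simple factors of `Y` are supersingular or isogenous to ONE simple abelian variety `A` of dimension
  at most five: so `Y` is a power of `A` times a supersingular abelian variety, of any dimension;
* `Y` has dimension at most five;
* the factors of `Y` which are not supersingular are isogenous to factors of some `Z` with `SmallFactors Z`,
  for instance to elliptic curves and abelian surfaces, with any multiplicities;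
* the factors of `Y` which are not supersingular are isogenous to factors of some `Z` for which the
  multiplicative relations between the Frobenius eigenvalues are generated by elementary ones.

Then a class of an algebraic cycle with rational coefficients which is numerically trivial is zero, and
for all polarizations and all `r`, `m` with `dim Y = 2 r + m` and for all algebraic classes `z` in
`H^{2 r}(Y)` which are not numerically trivial and numerically primitive (`y ∪ z ∪ E^{m + 1} = 0` for all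
algebraic classes `y` of complementary degree), `(-1)^r z ∪ z ∪ E^m > 0`.

The space of the classes of algebraic cycles of degree `card κ` on `Y`, with rational coefficients, is
`C Y κ`. The properties of these spaces that are used are known theorems: they are closed under sums,
cup products, pull-backs and push-forwards, they contain the Hodge classes of degree two of the
liftings (Lefschetz), the split Weil classes of degree four and six (Markman) and the Hodge classes
of degree four of the liftings that are products of elliptic curves and abelian surfaces (Ramón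
Marí), and the Tate classes of degree two are combinations of such classes (Tate)
(`IsCycleSystemS`); the positivity of the Rosati involution (Weil, `IsRosatiPositive`); classes of
cycles are Tate classes over finite extensions (`AreTate`).
-/

set_option autoImplicit false

namespace Pool.Agent.Results.MP_c0b458_ag.PowersAndProducts

open NumberField Pool.Agent.H204R3.CM Pool.Agent.W547.KB Pool.Agent.W547.LD Pool.Agent.W547.HR
  Pool.Agent.W495.TA Module Pool.Agent.W976.TA Equiv Pool.Agent.TH117.PO Pool.Agent.Y137.SF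
  Pool.Agent.TH117.BL Pool.Agent.Y137.HS
open scoped TensorProduct

variable {p : ℕ} [Fact p.Prime] {ν : PadicAlgCl p ≃+* ℂ} {Ω : Type} [Field Ω] [CharZero Ω]

/-- The algebraic class `z` is numerically primitive for the polarization given by `α`: the cup product
`z ∪ E^{m+1}` is numerically trivial. -/
def IsNumPrim (C : (Y : RedAV p ν) → (κ : Type) → ((TM Ω Y) [⋀^κ]→ₗ[Ω] Ω) → Prop) {Y : RedAV p ν}
    (α : Y.X.H1) (m : ℕ) {κ : Type} [Fintype κ] [DecidableEq κ]
    (z : (TM Ω Y) [⋀^κ]→ₗ[Ω] Ω) : Prop :=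
  ∀ (κ' : Type) [Fintype κ'] [DecidableEq κ'] (y : (TM Ω Y) [⋀^κ']→ₗ[Ω] Ω), C Y κ' y →
    Fintype.card κ + 2 * (m + 1) + Fintype.card κ' = finrank ℚ Y.X.H1 →
      ∀ v : κ' ⊕ (κ ⊕ (Fin (m + 1) × Fin 2)) → Y.X.H1,
        altSum (times (res y) (times (res z) (powE (castE Ω (riemannForm Y.X α)) (m + 1)))) v = 0

/-- All factors of `Y` are supersingular or isogenous to one abelian variety `A` of CM type of dimension
at most five. -/
def IsPowerOfSmall (Y : RedAV p ν) : Prop :=
  ∃ (A : CMPair) (b : ℕ) (ϖ : A.E), finrank ℚ A.E ≤ 10 ∧ 0 < b ∧ IsFrobenius p ν A b ϖ ∧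
    IsPowerTimesSupersingular A b ϖ Y

/-- The four cases of the theorem. -/
def IsCovered (Y : RedAV p ν) : Prop :=
  IsPowerOfSmall Y ∨ finrank ℚ Y.X.H1 ≤ 10 ∨
    (∃ Z : RedAV p ν, SmallFactors Z ∧ IsPowersTimesSupersingular Z Y) ∨
      ∃ Z : RedAV p ν, HasElementaryRelations Z ∧ IsPowersTimesSupersingular Z Y

variable {C : (Y : RedAV p ν) → (κ : Type) → ((TM Ω Y) [⋀^κ]→ₗ[Ω] Ω) → Prop}

theorem nondegenerateS [IsAlgClosed Ω] (hS : IsCycleSystemS Ω C) {W : Set ℕ} {Y : RedAV p ν}
    {κ : Type} [Fintype κ] [DecidableEq κ] {z : (TM Ω Y) [⋀^κ]→ₗ[Ω] Ω} (hz : AlgS Ω W Y κ z)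
    (hnum : IsNumTrivial Ω C z) : z = 0 := by
  classical
  obtain ⟨T, hT⟩ := algS_SP hS hz
  have hne : Nonempty ((T.prod Y.X).prod (single (Pool.Agent.TH117.BL.kp p))).I := ⟨Sum.inr ()⟩
  obtain ⟨L, _, _, _, _, j, hj⟩ :=
    exists_cm ((T.prod Y.X).prod (single (Pool.Agent.TH117.BL.kp p)))
  have hTj : Big T j := fun i ψ => hj (Sum.inl (Sum.inl i)) ψ
  have hB : Big Y.X j := fun i ψ => hj (Sum.inl (Sum.inr i)) ψ
  let jO : L →+* Ω := ((IsAlgClosed.lift : L →ₐ[ℚ] Ω) : L →+* Ω)
  exact zero_of_numTrivial hS.toIsCycleSystem hB (hT L j jO hTj hB) hnum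

/-- A class with a property which holds for Tate classes and is stable under renaming of the variables. -/
theorem prop_of_tate (hC : IsCycleSystem Ω C) (hT : AreTate Ω C) {Y : RedAV p ν}
    {P : (κ : Type) → ((TM Ω Y) [⋀^κ]→ₗ[Ω] Ω) → Prop}
    (hre : ∀ {κ κ' : Type} (e : κ ≃ κ') (f : (TM Ω Y) [⋀^κ]→ₗ[Ω] Ω), P κ f →
      P κ' (f.domDomCongr e)) {n : ℕ} {κ : Type} [Fintype κ] (hκ : Fintype.card κ = 2 * n)
    (h : ∀ (s : ℕ) (f : (TM Ω Y) [⋀^Fin (2 * n)]→ₗ[Ω] Ω), 0 < s → IsTateClass Ω Y s n f →
      P (Fin (2 * n)) f)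
    {z : (TM Ω Y) [⋀^κ]→ₗ[Ω] Ω} (hz : C Y κ z) : P κ z := by
  let e : κ ≃ Fin (2 * n) := Fintype.equivFinOfCardEq hκ
  obtain ⟨s, hs, h1⟩ := hT (z.domDomCongr e) (hC.reindex e z hz)
  have h2 := hre e.symm _ (h s _ hs h1)
  have h3 : (z.domDomCongr e).domDomCongr e.symm = z := by
    refine AlternatingMap.ext fun v => ?_
    change z _ = z v
    congr 1
    funext k
    simp
  rwa [h3] at h2

/-- Homological and numerical equivalence coincide. -/
theorem eq_zero [IsAlgClosed Ω] (hC : IsCycleSystemS Ω C) (hT : AreTate Ω C) {Y : RedAV p ν}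
    (hY : IsCovered Y) {n : ℕ} {κ : Type} [Fintype κ] [DecidableEq κ]
    (hκ : Fintype.card κ = 2 * n) {z : (TM Ω Y) [⋀^κ]→ₗ[Ω] Ω} (hz : C Y κ z)
    (hnum : IsNumTrivial Ω C z) : z = 0 := by
  have hC' : IsCycleSystem Ω C := hC.toIsCycleSystem
  have h2 : (finrank ℚ Y.X.H1 ≤ 10 ∨
      ∃ Z : RedAV p ν, HasElementaryRelationsS Z ∧ IsPowersTimesSupersingular Z Y) → z = 0 := by
    intro h
    refine nondegenerateS hC (W := {4, 6}) ?_ hnum
    exact prop_of_tate hC' hT (P := fun κ f => AlgS Ω {4, 6} Y κ f)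
      (fun e f hf => AlgS.reindex e f hf) hκ (fun s f hs hf => algS_of_cases h s f hs hf) hz
  have h1 : ((∃ (A : CMPair) (b : ℕ) (ϖ : A.E), finrank ℚ A.E ≤ 10 ∧ 0 < b ∧
      IsFrobenius p ν A b ϖ ∧ IsPowerTimesSupersingular A b ϖ Y) ∨
      ∃ Z : RedAV p ν, HasElementaryRelations Z ∧ IsPowersTimesSupersingular Z Y) → z = 0 := by
    intro h
    refine nondegenerate hC' ?_ hnum
    exact prop_of_tate hC' hT (P := fun κ f => Alg Ω Y κ f)
      (fun e f hf => Alg.reindex e f hf) hκ (fun s f hs hf => alg_of_cases h s f hs hf) hz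
  rcases hY with h | h | ⟨Z, h, h'⟩ | h
  · exact h1 (Or.inl h)
  · exact h2 (Or.inl h)
  · exact h2 (Or.inr ⟨Z, h.elementary, h'⟩)
  · exact h1 (Or.inr h)

/-- Numerically primitive classes are primitive. -/
theorem prim_of_numPrim [IsAlgClosed Ω] (hC : IsCycleSystemS Ω C) (hT : AreTate Ω C)
    {Y : RedAV p ν} (hY : IsCovered Y) {α : Y.X.H1} (hα : IsPolar Y.X α) {r m : ℕ}
    {z : (TM Ω Y) [⋀^Fin r × Fin 2]→ₗ[Ω] Ω} (hz : C Y (Fin r × Fin 2) z)
    (hp : IsNumPrim C α m z) : IsPrim α m z := by
  classical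
  have hC' : IsCycleSystem Ω C := hC.toIsCycleSystem
  have hne : Nonempty (Y.X.prod (single (Pool.Agent.TH117.BL.kp p))).I := ⟨Sum.inr ()⟩
  obtain ⟨L, _, _, _, _, j, hj⟩ := exists_cm (Y.X.prod (single (Pool.Agent.TH117.BL.kp p)))
  have hB : Big Y.X j := fun i ψ => hj (Sum.inl i) ψ
  let jO : L →+* Ω := ((IsAlgClosed.lift : L →ₐ[ℚ] Ω) : L →+* Ω)
  obtain ⟨θ, hθ⟩ := exists_theta (jO := jO) j hα
  have hθr := res_theta j hB hθ
  have hCθ : C Y (Fin 2) θ := theta_mem hC' hα hθr
  have hθ1 : ∀ x y : Y.X.H1, θ ![(1 : Ω) ⊗ₜ[ℚ] x, (1 : Ω) ⊗ₜ[ℚ] y] =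
      castE Ω (riemannForm Y.X α) x y := by
    intro x y
    rw [castE, ← hθr]
    unfold res
    congr 1
    funext k
    fin_cases k <;> rfl
  have hpow : ∀ (k : ℕ) (v : Fin k × Fin 2 → Y.X.H1),
      powE (fun x y => θ ![x, y]) k (fun i => (1 : Ω) ⊗ₜ[ℚ] v i) =
        powE (castE Ω (riemannForm Y.X α)) k v := by
    intro k v
    unfold powE
    exact Finset.prod_congr rfl fun i _ => hθ1 _ _
  obtain ⟨Θ, a, ha, hΘ, hΘv⟩ := power_mem hC' hCθ (m + 1)
  set w := cupO z Θ with hw
  have hCw : C Y _ w := hC'.cup z Θ hz hΘ _ fun v => cupO_apply z Θ v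
  set c : Ω := (a : Ω) * ((Fintype.card (Perm (Fin (m + 1) × Fin 2)) : ℕ) : Ω) with hc
  have hc0 : c ≠ 0 := mul_ne_zero (by exact_mod_cast ha) (Nat.cast_ne_zero.2 Fintype.card_ne_zero)
  have hwv : ∀ v : (Fin r × Fin 2) ⊕ (Fin (m + 1) × Fin 2) → Y.X.H1, res w v =
      c * altSum (times (res z) (powE (castE Ω (riemannForm Y.X α)) (m + 1))) v := by
    intro v
    have h2 : ∀ u, cupO z Θ u = c *
        altSum (times z (powE (fun a b => θ ![a, b]) (m + 1))) u := by
      intro u
      rw [cupO_apply, hc, mul_assoc, ← altSum_absorb, ← altSum_const_mul]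
      congr 1
      funext x
      unfold times
      rw [hΘv]
      ring
    change cupO z Θ (fun i => (1 : Ω) ⊗ₜ[ℚ] v i) = _
    rw [h2]
    congr 1
    unfold altSum
    refine Finset.sum_congr rfl fun σ _ => ?_
    congr 1
    unfold times
    rw [hpow]
    rfl
  have hnum : IsNumTrivial Ω C w := by
    intro κ' _ _ y hy hcard v
    have h3 : altSum (times (res w) (res y)) v =
        altSum (times (res y) (res w)) (fun q => v (Equiv.sumComm _ _ q)) := by
      rw [← altSum_reindex (Equiv.sumComm κ' ((Fin r × Fin 2) ⊕ (Fin (m + 1) × Fin 2)))]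
      congr 1
      funext x
      unfold times
      rw [mul_comm]
      rfl
    have h4 : (times (res y) (res w) : _ → Ω) = fun x =>
        c * times (res y) (altSum (times (res z) (powE (castE Ω (riemannForm Y.X α)) (m + 1)))) x := by
      funext x
      unfold times
      rw [hwv]
      unfold times
      ring
    rw [h3, h4, altSum_const_mul, altSum_absorb]
    rw [hp κ' y hy (by
      rw [← hcard]
      simp only [Fintype.card_prod, Fintype.card_fin, Fintype.card_sum]
      ring), mul_zero, mul_zero]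
  have hw0 : w = 0 := eq_zero hC hT hY (n := r + (m + 1)) (by
    simp only [Fintype.card_prod, Fintype.card_fin, Fintype.card_sum]
    ring) hCw hnum
  intro v
  have h5 := hwv v
  rw [hw0] at h5
  have h6 : res (0 : (TM Ω Y) [⋀^(Fin r × Fin 2) ⊕ (Fin (m + 1) × Fin 2)]→ₗ[Ω] Ω) v = 0 := rfl
  rw [h6] at h5
  exact (mul_eq_zero.1 h5.symm).resolve_left hc0

/-- **The numerical Hodge standard conjecture** for the abelian varieties `Y` over finite fields in the four
cases of `IsCovered`, for all polarizations compatible with the complex multiplications: numerically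
trivial algebraic classes are zero, and `(-1)^r z ∪ z ∪ E^m > 0` for all numerically primitive algebraic
classes `z` of degree `2 r` which are not numerically trivial, where `dim Y = 2 r + m`. -/
theorem result (p : ℕ) [Fact p.Prime] (ν : PadicAlgCl p ≃+* ℂ) (Ω : Type) [Field Ω]
    [IsAlgClosed Ω] [CharZero Ω]
    (C : (Y : RedAV p ν) → (κ : Type) → ((TM Ω Y) [⋀^κ]→ₗ[Ω] Ω) → Prop)
    (hC : IsCycleSystemS Ω C) (hR : IsRosatiPositive Ω C) (hT : AreTate Ω C) (Y : RedAV p ν)
    (hY : IsCovered Y) :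
    (∀ (r : ℕ) (z : (TM Ω Y) [⋀^Fin r × Fin 2]→ₗ[Ω] Ω), C Y (Fin r × Fin 2) z →
      IsNumTrivial Ω C z → z = 0) ∧
    ∀ α : Y.X.H1, IsPolar Y.X α → ∀ r m : ℕ, 2 * (2 * r + m) = finrank ℚ Y.X.H1 →
      ∀ z : (TM Ω Y) [⋀^Fin r × Fin 2]→ₗ[Ω] Ω, C Y (Fin r × Fin 2) z → ¬ IsNumTrivial Ω C z →
        IsNumPrim C α m z → IsPosClass α m z := by
  refine ⟨fun r z hz hnum => eq_zero hC hT hY (n := r) (by
    simp only [Fintype.card_prod, Fintype.card_fin]
    ring) hz hnum, ?_⟩
  intro α hα r m hrm z hz hnum hprim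
  have hz0 : z ≠ 0 := by
    rintro rfl
    apply hnum
    intro κ' _ _ y _ _ v
    unfold altSum times
    refine Finset.sum_eq_zero fun σ _ => ?_
    have h6 : ∀ u, res (0 : (TM Ω Y) [⋀^Fin r × Fin 2]→ₗ[Ω] Ω) u = 0 := fun _ => rfl
    rw [h6, zero_mul, mul_zero]
  have hp := prim_of_numPrim hC hT hY hα hz hprim
  rcases hY with h | h | ⟨Z, h, h'⟩ | h
  · exact positive_full hC.toIsCycleSystem hR hT (Or.inl h) hα hrm hz hz0 hp
  · exact hodgeStandard hC hR hT (Or.inl h) hα hrm hz hz0 hp
  · exact hodgeStandard hC hR hT (Or.inr ⟨Z, h.elementary, h'⟩) hα hrm hz hz0 hp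
  · exact positive_full hC.toIsCycleSystem hR hT (Or.inr h) hα hrm hz hz0 hp

end Pool.Agent.Results.MP_c0b458_ag.PowersAndProducts
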